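import Mathlib

/-!
# Smoothed subspace monomial matrices: two subspaces of dimension more than `n / 2`

For every `d ≥ 2` and every `δ < 1 - 2 ^ (1 - d)` the dimension condition
`N ≤ (1 - δ) * choose (n + d - 1) d` allows `s = 2` and `t = n / 2 + 1` for all large `n`;
then the two perturbed subspaces meet outside `0` in every outcome, a `d`-th power of a common
linear form lies in the span of both column blocks, and `σ_N(M) = 0` surely.
-/

open MeasureTheory ProbabilityTheory Module

namespace Pool.Agent.Results.MP_21e226_pr.Intersecting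

/-- Exponent vectors of total degree `d` in `k` variables (these index the degree-`d` monomials). -/
abbrev Mon (k d : ℕ) : Type := ↥(Finset.piAntidiag (Finset.univ : Finset (Fin k)) d)

/-- The linear form `x ↦ ⟨v, x⟩` as a polynomial in `x_1, ..., x_n`. -/
noncomputable def linForm {n : ℕ} (v : EuclideanSpace ℝ (Fin n)) : MvPolynomial (Fin n) ℝ :=
  ∑ a, MvPolynomial.C (v a) * MvPolynomial.X a

/-- The matrix `M`: rows indexed by the degree-`d` monomials in `n` variables, columns split into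
`s` blocks, the column `(i, α)` being the coefficient vector of `∏ j, ℓ_{ij} ^ α_j`. -/
noncomputable def monMatrix {n t s : ℕ} (d : ℕ) (v : Fin s → Fin t → EuclideanSpace ℝ (Fin n)) :
    Matrix (Mon n d) (Fin s × Mon t d) ℝ :=
  fun β c => MvPolynomial.coeff (Finsupp.equivFunOnFinite.symm β.1)
    (∏ j, linForm (v c.1 j) ^ (c.2.1 j))

/-- `σ_N(M)`, the `N`-th largest singular value of `M`, where `N = s * choose (t + d - 1) d` is the
number of columns (Mathlib numbers singular values from `0`). -/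
noncomputable def sigmaN {n t s : ℕ} (d : ℕ) (v : Fin s → Fin t → EuclideanSpace ℝ (Fin n)) : ℝ :=
  (Matrix.toLpLin 2 2 (monMatrix d v)).singularValues (s * (t + d - 1).choose d - 1)

/-- The law of `(G_1, ..., G_s)`: independent `N(0, ρ ^ 2 / n)` entries; `G i j` is the `j`-th
column of `G_i`. -/
noncomputable def gaussLaw (n t s : ℕ) (ρ : ℝ) : Measure (Fin s → Fin t → Fin n → ℝ) :=
  Measure.pi fun _ => Measure.pi fun _ => Measure.pi fun _ => gaussianReal 0 (ρ ^ 2 / n).toNNReal

/-- Gram-Schmidt applied to the columns `P_{ij} + G_{ij}` of `P_i + G_i`. -/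
noncomputable def gsBasis {n t s : ℕ} (P : Fin s → Fin t → EuclideanSpace ℝ (Fin n))
    (G : Fin s → Fin t → Fin n → ℝ) : Fin s → Fin t → EuclideanSpace ℝ (Fin n) :=
  fun i => InnerProductSpace.gramSchmidtNormed ℝ (fun j => P i j + WithLp.toLp 2 (G i j))

lemma card_mon (k d : ℕ) : Fintype.card (Mon k d) = (k + d - 1).choose d := by
  rw [Fintype.card_coe, ← Finset.map_sym_eq_piAntidiag, Finset.card_map, Finset.sym_univ,
    Finset.card_univ, Sym.card_sym_eq_choose, Fintype.card_fin]

lemma linForm_sum {n t : ℕ} (a : Fin t → ℝ) (v : Fin t → EuclideanSpace ℝ (Fin n)) :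
    linForm (∑ j, a j • v j) = ∑ j, MvPolynomial.C (a j) * linForm (v j) := by
  simp only [linForm, WithLp.ofLp_sum, WithLp.ofLp_smul, Finset.sum_apply, Pi.smul_apply,
    smul_eq_mul, map_sum, map_mul, Finset.sum_mul, Finset.mul_sum, mul_assoc]
  rw [Finset.sum_comm]

/-- The column vector whose image under `M` is the coefficient vector of `(∑ a_j ℓ_{ij}) ^ d`. -/
lemma sum_block {n t : ℕ} (d : ℕ) (a : Fin t → ℝ) (v : Fin t → EuclideanSpace ℝ (Fin n))
    (m : Fin n →₀ ℕ) :
    ∑ α : Mon t d, MvPolynomial.coeff m (∏ j, linForm (v j) ^ (α.1 j)) *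
        ((Nat.multinomial Finset.univ α.1 : ℝ) * ∏ j, a j ^ (α.1 j)) =
      MvPolynomial.coeff m (linForm (∑ j, a j • v j) ^ d) := by
  rw [linForm_sum, Finset.sum_pow_eq_sum_piAntidiag, MvPolynomial.coeff_sum,
    ← Finset.sum_coe_sort (Finset.piAntidiag (Finset.univ : Finset (Fin t)) d)]
  refine Finset.sum_congr rfl fun α _ => ?_
  have : ((Nat.multinomial Finset.univ α.1 : ℕ) : MvPolynomial (Fin n) ℝ) *
      ∏ i, (MvPolynomial.C (a i) * linForm (v i)) ^ (α.1 i) =
      MvPolynomial.C ((Nat.multinomial Finset.univ α.1 : ℝ) * ∏ j, a j ^ (α.1 j)) *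
        ∏ j, linForm (v j) ^ (α.1 j) := by
    simp only [mul_pow, Finset.prod_mul_distrib, map_mul, map_prod, map_pow, map_natCast]
    ring
  rw [this, MvPolynomial.coeff_C_mul]
  ring

lemma sigmaN_eq_zero {n t d : ℕ} (ht : n < 2 * t)
    (v : Fin 2 → Fin t → EuclideanSpace ℝ (Fin n)) : sigmaN d v = 0 := by
  classical
  -- the `2 t` vectors are linearly dependent
  have hdep : ¬ LinearIndependent ℝ (fun p : Fin 2 × Fin t => v p.1 p.2) := by
    intro h
    have := h.fintype_card_le_finrank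
    simp at this
    omega
  obtain ⟨g, hg, p, hp⟩ := Fintype.not_linearIndependent_iff.1 hdep
  have hg' : ∑ j, g (0, j) • v 0 j + ∑ j, g (1, j) • v 1 j = 0 := by
    rw [← hg, Fintype.sum_prod_type, Fin.sum_univ_two]
  -- the kernel vector
  let u : Fin 2 × Mon t d → ℝ := fun c =>
    (if c.1 = 0 then 1 else -1) * ((Nat.multinomial Finset.univ c.2.1 : ℝ) *
      ∏ j, (if c.1 = 0 then g (0, j) else - g (1, j)) ^ (c.2.1 j))
  have hu : (monMatrix d v).mulVec u = 0 := by
    funext β
    simp only [Matrix.mulVec, dotProduct, Pi.zero_apply]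
    rw [Fintype.sum_prod_type, Fin.sum_univ_two]
    have h0 := sum_block d (fun j => g (0, j)) (v 0) (Finsupp.equivFunOnFinite.symm β.1)
    have h1 := sum_block d (fun j => - g (1, j)) (v 1) (Finsupp.equivFunOnFinite.symm β.1)
    have e0 : ∑ x : Mon t d, monMatrix d v β (0, x) * u (0, x) =
        MvPolynomial.coeff (Finsupp.equivFunOnFinite.symm β.1)
          (linForm (∑ j, g (0, j) • v 0 j) ^ d) := by
      rw [← h0]
      refine Finset.sum_congr rfl fun α _ => ?_
      simp [u, monMatrix]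
    have e1 : ∑ x : Mon t d, monMatrix d v β (1, x) * u (1, x) =
        - MvPolynomial.coeff (Finsupp.equivFunOnFinite.symm β.1)
          (linForm (∑ j, (- g (1, j)) • v 1 j) ^ d) := by
      rw [← h1, ← Finset.sum_neg_distrib]
      refine Finset.sum_congr rfl fun α _ => ?_
      simp [u, monMatrix]
    have e2 : ∑ j, (- g (1, j)) • v 1 j = ∑ j, g (0, j) • v 0 j := by
      simp only [neg_smul, Finset.sum_neg_distrib]
      rw [neg_eq_iff_add_eq_zero, add_comm]
      exact hg'
    rw [e0, e1, e2]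
    ring
  -- it is nonzero
  have hune : u ≠ 0 := by
    intro h
    obtain ⟨i, j⟩ := p
    have hmem : (Pi.single j d : Fin t → ℕ) ∈ Finset.piAntidiag (Finset.univ : Finset (Fin t)) d := by
      simp [Finset.mem_piAntidiag]
    have := congrFun h (i, ⟨_, hmem⟩)
    have hmult : (Nat.multinomial Finset.univ (Pi.single j d : Fin t → ℕ) : ℝ) ≠ 0 := by
      have := Nat.multinomial_pos Finset.univ (Pi.single j d : Fin t → ℕ)
      positivity
    have hprod : ∀ a : Fin t → ℝ, ∏ k, a k ^ ((Pi.single j d : Fin t → ℕ) k) = a j ^ d := by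
      intro a
      rw [Finset.prod_eq_single j]
      · simp
      · intro b _ hb
        simp [Pi.single_eq_of_ne hb]
      · simp
    simp only [u, Pi.zero_apply] at this
    rw [hprod (fun k => if i = 0 then g (0, k) else - g (1, k))] at this
    fin_cases i
    · simp at this hp
      rcases this with h1 | h1
      · exact hmult (by exact_mod_cast h1)
      · exact hp h1.1
    · simp at this hp
      rcases this with h1 | h1
      · exact hmult (by exact_mod_cast h1)
      · exact hp h1.1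
  -- hence the map is not injective
  have hcard : finrank ℝ (EuclideanSpace ℝ (Fin 2 × Mon t d)) = 2 * (t + d - 1).choose d := by
    rw [finrank_euclideanSpace, Fintype.card_prod, Fintype.card_fin, card_mon]
  have hker : (Matrix.toLpLin 2 2 (monMatrix d v)).ker ≠ ⊥ := by
    intro h
    rw [LinearMap.ker_eq_bot'] at h
    have h2 := h (WithLp.toLp 2 u) (by
      rw [Matrix.toLpLin_toLp, Matrix.toLin'_apply, hu]; rfl)
    exact hune (by simpa using congrArg WithLp.ofLp h2)
  unfold sigmaN
  rw [LinearMap.singularValues_eq_zero_iff_le_finrank_range]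
  have h1 := LinearMap.finrank_range_add_finrank_ker (Matrix.toLpLin 2 2 (monMatrix d v))
  have h2 : 0 < finrank ℝ (Matrix.toLpLin 2 2 (monMatrix d v)).ker := by
    rw [Module.finrank_pos_iff]
    exact (Submodule.nontrivial_iff_ne_bot).2 hker
  rw [hcard] at h1
  omega

/-- The dimension condition holds for `s = 2`, `t = n / 2 + 1` and all large `n`. -/
lemma dimension_condition (d : ℕ) (δ : ℝ) (hδ : δ < 1 - 2 * (1 / 2 : ℝ) ^ d) :
    ∃ n₀ : ℕ, ∀ n ≥ n₀, n / 2 + 1 ≤ n ∧
      (((2 * ((n / 2 + 1) + d - 1).choose d : ℕ) : ℝ) ≤ (1 - δ) * ((n + d - 1).choose d : ℕ)) := by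
  have hlim : Filter.Tendsto (fun n : ℕ => 2 * ((1 / 2 : ℝ) + (d + 1 : ℝ) / n) ^ d) Filter.atTop
      (nhds (2 * ((1 / 2 : ℝ) + 0) ^ d)) := by
    refine Filter.Tendsto.const_mul _ (Filter.Tendsto.pow (Filter.Tendsto.const_add _ ?_) d)
    exact tendsto_const_div_atTop_nhds_zero_nat _
  have hev := hlim.eventually (gt_mem_nhds (show 2 * ((1 / 2 : ℝ) + 0) ^ d < 1 - δ by
    rw [add_zero]; linarith))
  obtain ⟨n₀, hn₀⟩ := Filter.eventually_atTop.1 hev
  refine ⟨max n₀ 2, fun n hn => ⟨?_, ?_⟩⟩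
  · have : 2 ≤ n := le_trans (le_max_right _ _) hn
    omega
  · have hn2 : 2 ≤ n := le_trans (le_max_right _ _) hn
    have hnpos : (0 : ℝ) < n := by positivity
    have hn1 := hn₀ n (le_trans (le_max_left _ _) hn)
    set c : ℝ := (1 / 2 : ℝ) + (d + 1 : ℝ) / n with hc
    have hcn : c * n = n / 2 + (d + 1) := by
      rw [hc]; field_simp
    have hcpos : 0 < c := by positivity
    have hprod : (((n / 2 + 1).ascFactorial d : ℕ) : ℝ) ≤ c ^ d * ((n.ascFactorial d : ℕ) : ℝ) := by
      rw [Nat.ascFactorial_eq_prod_range, Nat.ascFactorial_eq_prod_range]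
      push_cast
      calc ∏ i ∈ Finset.range d, ((((n / 2 : ℕ) : ℝ) + 1) + (i : ℝ))
          ≤ ∏ i ∈ Finset.range d, (c * ((n : ℝ) + (i : ℝ))) := by
            refine Finset.prod_le_prod (fun i _ => by positivity) fun i hi => ?_
            have hid : (i : ℝ) ≤ d := by exact_mod_cast (Finset.mem_range.1 hi).le
            have h2 : ((n / 2 : ℕ) : ℝ) ≤ n / 2 := Nat.cast_div_le
            have h3 : 0 ≤ c * i := by positivity
            nlinarith
        _ = c ^ d * ∏ i ∈ Finset.range d, ((n : ℝ) + (i : ℝ)) := by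
            rw [Finset.prod_mul_distrib, Finset.prod_const, Finset.card_range]
    have hfac : (0 : ℝ) < (d.factorial : ℝ) := by positivity
    have e1 := Nat.ascFactorial_eq_factorial_mul_choose' (n / 2 + 1) d
    have e2 := Nat.ascFactorial_eq_factorial_mul_choose' n d
    rw [e1, e2] at hprod
    push_cast at hprod ⊢
    have h5 : ((((n / 2 + 1) + d - 1).choose d : ℕ) : ℝ) ≤ c ^ d * (((n + d - 1).choose d : ℕ) : ℝ) := by
      have : (d.factorial : ℝ) * ((((n / 2 + 1) + d - 1).choose d : ℕ) : ℝ) ≤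
        (d.factorial : ℝ) * (c ^ d * (((n + d - 1).choose d : ℕ) : ℝ)) := by nlinarith
      exact le_of_mul_le_mul_left this hfac
    have h6 : (0 : ℝ) ≤ (((n + d - 1).choose d : ℕ) : ℝ) := by positivity
    nlinarith

/-- For every `d` and every real `δ < 1 - 2 ^ (1 - d)` (so `δ ∈ (0, 1)` is allowed exactly when
`d ≥ 2`) and all large `n` there is `t ≤ n` such that
with `s = 2` the dimension condition `N ≤ (1 - δ) * choose (n + d - 1) d` holds, while for all
`ρ ∈ (0, 1]`, all `P_1, P_2` with orthonormal columns and all exponents `C`, the probability of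
`σ_N(M) ≥ (ρ / n) ^ C` is `0`. -/
theorem result (d : ℕ) (δ : ℝ) (hδ : δ < 1 - 2 * (1 / 2 : ℝ) ^ d) :
    ∃ n₀ : ℕ, ∀ n ≥ n₀, ∃ t : ℕ, 1 ≤ t ∧ t ≤ n ∧
      (((2 * (t + d - 1).choose d : ℕ) : ℝ) ≤ (1 - δ) * ((n + d - 1).choose d : ℕ)) ∧
      ∀ ρ : ℝ, 0 < ρ → ρ ≤ 1 → ∀ P : Fin 2 → Fin t → EuclideanSpace ℝ (Fin n),
        (∀ i, Orthonormal ℝ (P i)) → ∀ C : ℝ,
          gaussLaw n t 2 ρ {G | (ρ / n) ^ C ≤ sigmaN d (gsBasis P G)} = 0 := by
  obtain ⟨n₀, hn₀⟩ := dimension_condition d δ hδ
  refine ⟨max n₀ 1, fun n hn => ⟨n / 2 + 1, by omega, ?_, ?_, ?_⟩⟩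
  · exact (hn₀ n (le_trans (le_max_left _ _) hn)).1
  · exact (hn₀ n (le_trans (le_max_left _ _) hn)).2
  · intro ρ hρ _ P _ C
    have hn1 : 1 ≤ n := le_trans (le_max_right _ _) hn
    have hpos : (0 : ℝ) < (ρ / n) ^ C := by
      have : (0 : ℝ) < ρ / n := by positivity
      exact Real.rpow_pos_of_pos this C
    have : {G | (ρ / n) ^ C ≤ sigmaN d (gsBasis P G)} = ∅ := by
      ext G
      simp only [Set.mem_ofPred_eq, Set.mem_empty_iff_false, iff_false, not_le]
      rw [sigmaN_eq_zero (by omega)]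
      exact hpos
    rw [this]
    exact measure_empty

end Pool.Agent.Results.MP_21e226_pr.Intersecting
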